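import Pool.Agent.W243.TD.Stm

/-! TD-LAN (owner helper243): dimension count with an annihilated space. -/

set_option autoImplicit false

namespace Pool.Agent.W216.TD

open Finset Module
open Pool.Agent.H335R2.Obs (kSpan coord' finrank_orth_le)
open Pool.Agent.W243.TD

/-- the complex span of a `K`-space has at least the same dimension -/
theorem finrank_le_cSpan (K : Type*) [Field K] (ι : K →+* ℂ) {k : ℕ}
    (U : Submodule K (Fin k → K))
    (W : Submodule ℂ (Fin k → ℂ)) (h : ∀ u ∈ U, (fun i => ι (u i)) ∈ W) :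
    finrank K U ≤ finrank ℂ W := by
  classical
  obtain ⟨E, h1, -, h3⟩ := coord' U
  choose u hu hu1 hu2 using h3
  have hmem : ∀ j : {j // j ∉ E}, (fun i => ι (u j.1 j.2 i)) ∈ W := fun j =>
    h _ (hu j.1 j.2)
  have hli : LinearIndependent ℂ (fun j : {j // j ∉ E} => (⟨_, hmem j⟩ : W)) := by
    rw [Fintype.linearIndependent_iff]
    intro c hc j
    have h4 := congrArg (fun v : W => (v : Fin k → ℂ) j.1) hc
    simp only [Submodule.coe_sum, Submodule.coe_smul, Finset.sum_apply,
      Pi.smul_apply, smul_eq_mul, ZeroMemClass.coe_zero, Pi.zero_apply] at h4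
    rw [Finset.sum_eq_single j] at h4
    · refine (mul_eq_zero.mp h4).resolve_right ?_
      intro h5
      exact hu1 j.1 j.2 ((map_eq_zero ι).1 h5)
    · intro j' _ hj'
      rw [hu2 j'.1 j'.2 j.1 j.2 (fun h => hj' (Subtype.ext h.symm)), map_zero, mul_zero]
    · simp
  have h5 := hli.fintype_card_le_finrank
  have h6 : Fintype.card {j // j ∉ E} = (univ \ E).card := by
    rw [Fintype.card_subtype]
    congr 1
    ext i; simp
  omega

/-- the statement for an arbitrary field with an embedding into `ℂ` -/
theorem lan_gen (K : Type*) [Field K] (ι : K →+* ℂ) (d : ℕ) (V' V'' : Submodule K (Fin d → K))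
    (Rm : AddSubgroup (Fin d → ℤ)) (N : Submodule ℂ (Fin d → ℂ))
    (hV'' : ∀ v, v ∈ V'' ↔ v ∈ V' ∧ ∀ m ∈ Rm, ∑ j, (m j : K) * v j = 0)
    (hN : N ≤ kSpan ℂ Rm) (hperp : ∀ v ∈ V', ∀ α ∈ N, ∑ j, α j * ι (v j) = 0) :
    finrank K V' + finrank ℂ N ≤ finrank K V'' + finrank ℤ Rm := by
  classical
  let B := Module.finBasis ℤ (AddSubgroup.toIntSubmodule Rm)
  let mm : Fin (finrank ℤ (AddSubgroup.toIntSubmodule Rm)) → Fin d → ℤ :=
    fun i => (B i : Fin d → ℤ)
  have hmm : ∀ i, mm i ∈ Rm := fun i => (B i).2
  have hgen : ∀ m ∈ Rm, ∃ c : Fin (finrank ℤ (AddSubgroup.toIntSubmodule Rm)) → ℤ,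
      ∀ j, m j = ∑ i, c i * mm i j := by
    intro m hm
    refine ⟨B.repr ⟨m, hm⟩, fun j => ?_⟩
    have h1 := B.sum_repr ⟨m, hm⟩
    have h3 := congrArg (fun v : AddSubgroup.toIntSubmodule Rm => (v : Fin d → ℤ) j) h1
    simp only [Submodule.coe_sum, Submodule.coe_smul, Finset.sum_apply, Pi.smul_apply,
      smul_eq_mul] at h3
    exact h3.symm
  let φ : V' →ₗ[K] (Fin (finrank ℤ (AddSubgroup.toIntSubmodule Rm)) → K) :=
    { toFun := fun v i => ∑ j, (mm i j : K) * (v : Fin d → K) j
      map_add' := by
        intro a b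
        funext i
        simp only [Submodule.coe_add, Pi.add_apply, mul_add, Finset.sum_add_distrib]
      map_smul' := by
        intro c a
        funext i
        simp only [Submodule.coe_smul, Pi.smul_apply, smul_eq_mul, RingHom.id_apply,
          Finset.mul_sum]
        refine Finset.sum_congr rfl fun j _ => ?_
        ring }
  have hφ : ∀ v i, φ v i = ∑ j, (mm i j : K) * (v : Fin d → K) j := fun v i => rfl
  -- the kernel
  have hker : finrank K (LinearMap.ker φ) ≤ finrank K V'' := by
    let f : LinearMap.ker φ →ₗ[K] V'' :=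
      { toFun := fun v => ⟨((v : V') : Fin d → K), by
          rw [hV'']
          refine ⟨(v : V').2, fun m hm => ?_⟩
          obtain ⟨c, hc⟩ := hgen m hm
          have h1 : ∀ j, (m j : K) = ∑ i, (c i : K) * (mm i j : K) := by
            intro j
            rw [hc j]
            push_cast
            rfl
          simp only [h1, Finset.sum_mul]
          rw [Finset.sum_comm]
          apply Finset.sum_eq_zero
          intro i _
          have h2 := congrFun (LinearMap.mem_ker.1 v.2) i
          rw [hφ, Pi.zero_apply] at h2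
          simp only [mul_assoc, ← Finset.mul_sum]
          rw [h2, mul_zero]⟩
        map_add' := by intro a b; rfl
        map_smul' := by intro a b; rfl }
    apply LinearMap.finrank_le_finrank_of_injective (f := f)
    intro z z' hz
    have h6 : ((z : V') : Fin d → K) = ((z' : V') : Fin d → K) :=
      congrArg (fun x : V'' => (x : Fin d → K)) hz
    exact Subtype.ext (Subtype.ext h6)
  have hrn := LinearMap.finrank_range_add_finrank_ker φ
  -- the annihilated space in coordinates
  let ψ : (Fin (finrank ℤ (AddSubgroup.toIntSubmodule Rm)) → ℂ) →ₗ[ℂ] (Fin d → ℂ) :=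
    { toFun := fun c j => ∑ i, c i * (mm i j : ℂ)
      map_add' := by
        intro a b
        funext j
        simp only [Pi.add_apply, add_mul, Finset.sum_add_distrib]
      map_smul' := by
        intro c a
        funext j
        simp only [Pi.smul_apply, smul_eq_mul, RingHom.id_apply, Finset.mul_sum, mul_assoc] }
  have hψ : ∀ c j, ψ c j = ∑ i, c i * (mm i j : ℂ) := fun c j => rfl
  have hNr : N ≤ LinearMap.range ψ := by
    refine hN.trans ?_
    unfold kSpan
    rw [Submodule.span_le]
    rintro _ ⟨ρ, hρ, rfl⟩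
    obtain ⟨c, hc⟩ := hgen ρ hρ
    refine ⟨fun i => (c i : ℂ), ?_⟩
    funext j
    rw [hψ, hc j]
    push_cast
    rfl
  have hN1 : finrank ℂ N ≤ finrank ℂ (N.comap ψ) := by
    have h1 : (N.comap ψ).map ψ = N := Submodule.map_comap_eq_of_le hNr
    calc finrank ℂ N = finrank ℂ ((N.comap ψ).map ψ) := by rw [h1]
      _ ≤ _ := Submodule.finrank_map_le _ _
  -- the complex span of the range
  let W : Submodule ℂ (Fin (finrank ℤ (AddSubgroup.toIntSubmodule Rm)) → ℂ) :=
    Submodule.span ℂ {w | ∃ v : V', w = fun i => ι (φ v i)}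
  have hW : finrank K (LinearMap.range φ) ≤ finrank ℂ W := by
    apply finrank_le_cSpan K ι
    rintro _ ⟨v, rfl⟩
    exact Submodule.subset_span ⟨v, rfl⟩
  have horth : finrank ℂ (N.comap ψ) + finrank ℂ W ≤
      finrank ℤ (AddSubgroup.toIntSubmodule Rm) := by
    apply finrank_orth_le
    intro c hc u hu
    have hu' : ψ u ∈ N := hu
    refine Submodule.span_induction (p := fun c _ => ∑ i, u i * c i = 0) ?_ ?_ ?_ ?_ hc
    · rintro _ ⟨v, rfl⟩
      have h1 := hperp v v.2 _ hu'
      simp only [hψ, Finset.sum_mul] at h1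
      rw [Finset.sum_comm] at h1
      rw [← h1]
      refine Finset.sum_congr rfl fun i _ => ?_
      change u i * ι (φ v i) = _
      rw [hφ, map_sum, Finset.mul_sum]
      refine Finset.sum_congr rfl fun j _ => ?_
      rw [map_mul, map_intCast]
      ring
    · simp
    · intro x y _ _ hx hy
      simp only [Pi.add_apply, mul_add, Finset.sum_add_distrib, hx, hy, add_zero]
    · intro a x _ hx
      have e : ∑ i, u i * (a • x) i = a * ∑ i, u i * x i := by
        rw [Finset.mul_sum]
        refine Finset.sum_congr rfl fun i _ => ?_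
        simp only [Pi.smul_apply, smul_eq_mul]
        ring
      rw [e, hx, mul_zero]
  have hfin : finrank ℤ Rm = finrank ℤ (AddSubgroup.toIntSubmodule Rm) := rfl
  omega

theorem lan : S_lan := by
  intro K d V' V'' Rm N hV'' hN hperp
  exact lan_gen K (algebraMap K ℂ) d V' V'' Rm N hV'' hN hperp

end Pool.Agent.W216.TD
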